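import Pool.Agent.KTK.Stmts

/-!
# Squad KTK, row ANG: angles and defects
-/

set_option autoImplicit false

namespace Pool.Agent.KTK.H51

open Pool.Agent.PRT Pool.Agent.KTK
open scoped ContDiff

theorem ip_self_ge (f : E) (hf : ‖f‖ = 1) : 1 ≤ ip f f := by
  have h : max |f.1| |f.2| = 1 := by
    have := Prod.norm_def f
    rw [hf] at this
    simpa [Real.norm_eq_abs] using this.symm
  unfold ip
  rcases max_choice |f.1| |f.2| with h1 | h1
  · have h2 : |f.1| = 1 := by rw [← h1]; exact h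
    have h3 : f.1 * f.1 = 1 := by rw [← abs_mul_abs_self, h2]; norm_num
    nlinarith [mul_self_nonneg f.2]
  · have h2 : |f.2| = 1 := by rw [← h1]; exact h
    have h3 : f.2 * f.2 = 1 := by rw [← abs_mul_abs_self, h2]; norm_num
    nlinarith [mul_self_nonneg f.1]

theorem norm_rot (f : E) : ‖((-f.2, f.1) : E)‖ = ‖f‖ := by
  rw [Prod.norm_def, Prod.norm_def]
  simp only [norm_neg]
  exact max_comm _ _

theorem abs_cr_symm (e f : E) : |cr f e| = |cr e f| := by
  have : cr f e = - cr e f := by unfold cr; ring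
  rw [this, abs_neg]

theorem norm_map_le (B : E →L[ℝ] E) (e f : E) (he : ‖e‖ = 1) (hf : ‖f‖ = 1) :
    ‖B e‖ ≤ 2 * ‖B f‖ + ‖B‖ * |cr e f| := by
  have hm := ip_self_ge f hf
  have hm0 : (0 : ℝ) < ip f f := by linarith
  have hdec : e = (ip e f / ip f f) • f + (cr f e / ip f f) • ((-f.2, f.1) : E) := by
    have hne : ip f f ≠ 0 := hm0.ne'
    ext
    · simp only [Prod.fst_add, Prod.smul_fst, smul_eq_mul]
      field_simp
      unfold ip cr
      ring
    · simp only [Prod.snd_add, Prod.smul_snd, smul_eq_mul]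
      field_simp
      unfold ip cr
      ring
  have ht : |ip e f / ip f f| ≤ 2 := by
    rw [abs_div, abs_of_pos hm0, div_le_iff₀ hm0]
    have := abs_ip_le e f
    rw [he, hf] at this
    linarith
  have hc : |cr f e / ip f f| ≤ |cr e f| := by
    rw [abs_div, abs_of_pos hm0, div_le_iff₀ hm0, abs_cr_symm]
    nlinarith [abs_nonneg (cr e f)]
  calc ‖B e‖ = ‖B ((ip e f / ip f f) • f + (cr f e / ip f f) • ((-f.2, f.1) : E))‖ := by
        rw [← hdec]
    _ = ‖(ip e f / ip f f) • B f + (cr f e / ip f f) • B ((-f.2, f.1) : E)‖ := by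
        rw [map_add, map_smul, map_smul]
    _ ≤ ‖(ip e f / ip f f) • B f‖ + ‖(cr f e / ip f f) • B ((-f.2, f.1) : E)‖ := norm_add_le _ _
    _ = |ip e f / ip f f| * ‖B f‖ + |cr f e / ip f f| * ‖B ((-f.2, f.1) : E)‖ := by
        rw [norm_smul, norm_smul, Real.norm_eq_abs, Real.norm_eq_abs]
    _ ≤ 2 * ‖B f‖ + |cr e f| * ‖B‖ := by
        refine add_le_add (mul_le_mul_of_nonneg_right ht (norm_nonneg _)) ?_
        refine mul_le_mul hc ?_ (norm_nonneg _) (abs_nonneg _)
        have := B.le_opNorm ((-f.2, f.1) : E)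
        rw [norm_rot, hf, mul_one] at this
        exact this
    _ = 2 * ‖B f‖ + ‖B‖ * |cr e f| := by ring

theorem final_ineq {D s la lb c : ℝ} (hD : 2 ≤ D) (hs : s ≤ D / 2) (h1 : D - s ≤ la)
    (h2 : lb ≤ s - D)
    (h : Real.exp la ≤ 2 * Real.exp lb + Real.exp D / 2 * c) : Real.exp (-s) ≤ c := by
  have e1 : Real.exp (D - s) ≤ Real.exp la := Real.exp_le_exp.2 h1
  have e2 : Real.exp lb ≤ Real.exp (s - D) := Real.exp_le_exp.2 h2
  have e3 : Real.exp (D - s) = Real.exp D * Real.exp (-s) := by rw [← Real.exp_add]; ring_nf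
  have e4 : Real.exp (s - D) = Real.exp D * Real.exp (-s) * Real.exp (2 * s - 2 * D) := by
    rw [← Real.exp_add, ← Real.exp_add]; ring_nf
  have e5 : Real.exp (2 * s - 2 * D) ≤ Real.exp (-2) := Real.exp_le_exp.2 (by linarith)
  have e6 : Real.exp (-2) ≤ 1 / 4 := by
    have h3 : (4 : ℝ) ≤ Real.exp 2 := by
      have h4 : (2 : ℝ) ≤ Real.exp 1 := by
        have := Real.add_one_le_exp (1 : ℝ)
        linarith
      have h5 : Real.exp 2 = Real.exp 1 * Real.exp 1 := by rw [← Real.exp_add]; norm_num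
      rw [h5]
      nlinarith
    rw [Real.exp_neg, ← one_div]
    exact one_div_le_one_div_of_le (by norm_num) h3
  have hp : 0 < Real.exp D := Real.exp_pos D
  have hq : 0 < Real.exp (-s) := Real.exp_pos _
  -- 2 exp lb ≤ exp D exp(-s) / 2
  have e7 : 2 * Real.exp lb ≤ Real.exp D * Real.exp (-s) / 2 := by
    have : Real.exp D * Real.exp (-s) * Real.exp (2 * s - 2 * D) ≤
        Real.exp D * Real.exp (-s) * (1 / 4) :=
      mul_le_mul_of_nonneg_left (e5.trans e6) (mul_pos hp hq).le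
    linarith
  have e8 : Real.exp D / 2 * Real.exp (-s) ≤ Real.exp D / 2 * c := by
    linarith
  exact le_of_mul_le_mul_left e8 (by linarith)

theorem ang : AngStmt := by
  intro g D N x e f α β hC hB hD hS
  have key1 : ∀ i < N, 0 ≤ D - Real.log (α i) := fun i hi => by linarith [hS.aD i hi]
  have key2 : ∀ i < N, 0 ≤ Real.log (β i) + D := fun i hi => by linarith [hS.bD i hi]
  have hne : ∀ i < N, ‖fderiv ℝ g (x i) (e i)‖ = α i ∧ ‖fderiv ℝ g (x i) (f i)‖ = β i := by
    intro i hi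
    rw [hS.he i hi, hS.hf i hi, norm_smul, norm_smul, hS.e1 (i + 1) hi, hS.f1 (i + 1) hi,
      Real.norm_eq_abs, Real.norm_eq_abs, abs_of_pos (hS.a0 i hi), abs_of_pos (hS.b0 i hi)]
    exact ⟨mul_one _, mul_one _⟩
  refine ⟨fun i hi => ?_, fun i hi hs => ?_, fun i hi => ?_⟩
  · unfold df
    linarith [key1 i hi, key2 i hi]
  · have h1 := norm_map_le (fderiv ℝ g (x i)) (e i) (f i) (hS.e1 i hi.le) (hS.f1 i hi.le)
    rw [(hne i hi).1, (hne i hi).2] at h1
    have h2 : ‖fderiv ℝ g (x i)‖ * |cr (e i) (f i)| ≤ Real.exp D / 2 * |cr (e i) (f i)| :=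
      mul_le_mul_of_nonneg_right (hB _) (abs_nonneg _)
    have h3 : Real.exp (Real.log (α i)) ≤ 2 * Real.exp (Real.log (β i)) +
        Real.exp D / 2 * |cr (e i) (f i)| := by
      rw [Real.exp_log (hS.a0 i hi), Real.exp_log (hS.b0 i hi)]
      linarith
    have h4 : Real.exp (-(df D α β i)) ≤ |cr (e i) (f i)| := by
      refine final_ineq hD hs ?_ ?_ h3
      · unfold df; linarith [key2 i hi]
      · unfold df; linarith [key1 i hi]
    have hc : 0 < |cr (e i) (f i)| := abs_pos.2 (hS.c0 i hi.le)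
    have h5 : -(df D α β i) ≤ Real.log |cr (e i) (f i)| := (Real.le_log_iff_exp_le hc).2 h4
    unfold an
    linarith
  · have h1 : cr (fderiv ℝ g (x i) (e i)) (fderiv ℝ g (x i) (f i)) = cr (e i) (f i) := by
      rw [cr_map, hC.det, one_mul]
    rw [hS.he i hi, hS.hf i hi, cr_smul_left, cr_smul_right] at h1
    have hc' : cr (e (i + 1)) (f (i + 1)) ≠ 0 := hS.c0 (i + 1) hi
    have h2 : Real.log |cr (e i) (f i)| = Real.log (α i) + (Real.log (β i) +
        Real.log |cr (e (i + 1)) (f (i + 1))|) := by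
      rw [← h1, abs_mul, abs_mul, abs_of_pos (hS.a0 i hi), abs_of_pos (hS.b0 i hi),
        Real.log_mul (hS.a0 i hi).ne' (mul_ne_zero (hS.b0 i hi).ne' (abs_ne_zero.2 hc')),
        Real.log_mul (hS.b0 i hi).ne' (abs_ne_zero.2 hc')]
    have h3 : an e f (i + 1) - an e f i = Real.log (α i) + Real.log (β i) := by
      unfold an
      rw [h2]
      ring
    rw [h3, abs_le]
    unfold df
    constructor <;> linarith [key1 i hi, key2 i hi]

end Pool.Agent.KTK.H51
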