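import Pool.Agent.KTK.Stmts2
import Pool.Agent.Helper88_KTK.KAT

/-!
# Squad KTK, row MXA: the sequence `mg`
-/

set_option autoImplicit false

namespace Pool.Agent.KTK.H51

open Pool.Agent.PRT Pool.Agent.KTK
open scoped ContDiff

theorem per_max (φ : E → ℝ) (hc : Continuous φ) (hp : ∀ (a b : ℤ) (z : E), φ (z + iv a b) = φ z) :
    ∃ z0, ∀ z, φ z ≤ φ z0 := by
  have hK : IsCompact (Set.Icc (0 : ℝ) 1 ×ˢ Set.Icc (0 : ℝ) 1) := isCompact_Icc.prod isCompact_Icc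
  have hne : (Set.Icc (0 : ℝ) 1 ×ˢ Set.Icc (0 : ℝ) 1).Nonempty :=
    ⟨(0, 0), ⟨⟨le_rfl, zero_le_one⟩, ⟨le_rfl, zero_le_one⟩⟩⟩
  obtain ⟨z0, hz0, hmax⟩ := hK.exists_isMaxOn hne hc.continuousOn
  refine ⟨z0, fun z => ?_⟩
  have h1 : z + iv (-⌊z.1⌋) (-⌊z.2⌋) ∈ Set.Icc (0 : ℝ) 1 ×ˢ Set.Icc (0 : ℝ) 1 := by
    refine ⟨⟨?_, ?_⟩, ⟨?_, ?_⟩⟩
    · show (0 : ℝ) ≤ z.1 + ((-⌊z.1⌋ : ℤ) : ℝ)
      push_cast
      linarith [Int.floor_le z.1]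
    · show z.1 + ((-⌊z.1⌋ : ℤ) : ℝ) ≤ 1
      push_cast
      linarith [Int.lt_floor_add_one z.1]
    · show (0 : ℝ) ≤ z.2 + ((-⌊z.2⌋ : ℤ) : ℝ)
      push_cast
      linarith [Int.floor_le z.2]
    · show z.2 + ((-⌊z.2⌋ : ℤ) : ℝ) ≤ 1
      push_cast
      linarith [Int.lt_floor_add_one z.2]
  rw [← hp (-⌊z.1⌋) (-⌊z.2⌋) z]
  exact hmax h1

theorem per_fderiv {G : E → E} (hG : Eqv G) (a b : ℤ) (z : E) :
    fderiv ℝ G (z + iv a b) = fderiv ℝ G z := by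
  have h1 : fderiv ℝ (fun x => G (x + iv a b)) z = fderiv ℝ G (z + iv a b) :=
    fderiv_comp_add_right (iv a b)
  have h2 : (fun x => G (x + iv a b)) = fun x => G x + iv a b := by
    funext x
    exact hG a b x
  rw [← h1, h2, fderiv_add_const]

theorem row_le (M : E →L[ℝ] E) : |(M (1, 0)).1| + |(M (0, 1)).1| ≤ ‖M‖ ∧
    |(M (1, 0)).2| + |(M (0, 1)).2| ≤ ‖M‖ := by
  have key : ∀ s t : ℝ, |s| ≤ 1 → |t| ≤ 1 →
      |s * (M (1, 0)).1 + t * (M (0, 1)).1| ≤ ‖M‖ ∧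
      |s * (M (1, 0)).2 + t * (M (0, 1)).2| ≤ ‖M‖ := by
    intro s t hs ht
    have h1 : M (s, t) = s • M (1, 0) + t • M (0, 1) := by
      rw [← map_smul, ← map_smul, ← map_add]
      congr 1
      ext <;> simp
    have h2 : ‖((s, t) : E)‖ ≤ 1 := by
      rw [Prod.norm_def]
      exact max_le hs ht
    have h3 : ‖M (s, t)‖ ≤ ‖M‖ := (M.le_opNorm _).trans (mul_le_of_le_one_right (norm_nonneg _) h2)
    have h4 : |(M (s, t)).1| ≤ ‖M (s, t)‖ := norm_fst_le (M (s, t))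
    have h5 : |(M (s, t)).2| ≤ ‖M (s, t)‖ := norm_snd_le (M (s, t))
    rw [h1] at h4 h5 h3
    exact ⟨h4.trans h3, h5.trans h3⟩
  have sg : ∀ x : ℝ, ∃ s : ℝ, |s| ≤ 1 ∧ s * x = |x| := by
    intro x
    rcases le_total 0 x with h | h
    · exact ⟨1, by simp, by rw [one_mul, abs_of_nonneg h]⟩
    · exact ⟨-1, by simp, by rw [abs_of_nonpos h]; ring⟩
  constructor
  · obtain ⟨s, hs, hs'⟩ := sg (M (1, 0)).1
    obtain ⟨t, ht, ht'⟩ := sg (M (0, 1)).1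
    have := (key s t hs ht).1
    rw [hs', ht'] at this
    exact (le_abs_self _).trans this
  · obtain ⟨s, hs, hs'⟩ := sg (M (1, 0)).2
    obtain ⟨t, ht, ht'⟩ := sg (M (0, 1)).2
    have := (key s t hs ht).2
    rw [hs', ht'] at this
    exact (le_abs_self _).trans this

theorem one_le_norm (M : E →L[ℝ] E) (h : M.det = 1) : 1 ≤ ‖M‖ := by
  obtain ⟨h1, h2⟩ := row_le M
  rw [det_eq] at h
  unfold cr at h
  have h3 : |(M (1, 0)).1 * (M (0, 1)).2 - (M (1, 0)).2 * (M (0, 1)).1| ≤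
      |(M (1, 0)).1| * |(M (0, 1)).2| + |(M (1, 0)).2| * |(M (0, 1)).1| := by
    refine (abs_sub _ _).trans ?_
    rw [abs_mul, abs_mul]
  rw [h, abs_one] at h3
  have a1 := abs_nonneg (M (1, 0)).1
  have a2 := abs_nonneg (M (0, 1)).1
  have a3 := abs_nonneg (M (1, 0)).2
  have a4 := abs_nonneg (M (0, 1)).2
  have h4 : (|(M (1, 0)).1| + |(M (0, 1)).1|) * (|(M (1, 0)).2| + |(M (0, 1)).2|) ≤ ‖M‖ * ‖M‖ :=
    mul_le_mul h1 h2 (by positivity) (norm_nonneg _)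
  by_contra hlt
  push Not at hlt
  have h5 : ‖M‖ * ‖M‖ < 1 := by nlinarith [norm_nonneg M]
  nlinarith [mul_nonneg a1 a3, mul_nonneg a2 a4]

theorem mg_att {F : E → E} (hF : Cs F) (n : ℕ) :
    ∃ z0, (∀ z, ‖fderiv ℝ (F^[n]) z‖ ≤ ‖fderiv ℝ (F^[n]) z0‖) ∧
      Real.exp (mg F n) = ‖fderiv ℝ (F^[n]) z0‖ ∧ 1 ≤ ‖fderiv ℝ (F^[n]) z0‖ := by
  have hn := Pool.Agent.KTK.H88.cs_iter hF n
  have hcont : Continuous fun z => ‖fderiv ℝ (F^[n]) z‖ :=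
    (hn.sm.continuous_fderiv (by simp)).norm
  obtain ⟨z0, hz0⟩ := per_max (fun z => ‖fderiv ℝ (F^[n]) z‖) hcont
    (fun a b z => by
      show ‖fderiv ℝ (F^[n]) (z + iv a b)‖ = _
      rw [per_fderiv hn.eqv])
  have h1 : 1 ≤ ‖fderiv ℝ (F^[n]) z0‖ := one_le_norm _ (hn.det z0)
  have hsup : ⨆ z, ‖fderiv ℝ (F^[n]) z‖ = ‖fderiv ℝ (F^[n]) z0‖ := by
    refine le_antisymm (ciSup_le hz0) ?_
    refine le_ciSup (f := fun z => ‖fderiv ℝ (F^[n]) z‖) ⟨‖fderiv ℝ (F^[n]) z0‖, ?_⟩ z0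
    rintro _ ⟨z, rfl⟩
    exact hz0 z
  refine ⟨z0, hz0, ?_, h1⟩
  unfold mg
  rw [hsup, Real.exp_log (by linarith)]

theorem mxa : MxaStmt := by
  intro F hF
  have p1 : ∀ (n : ℕ) (z : E), ‖fderiv ℝ (F^[n]) z‖ ≤ Real.exp (mg F n) := by
    intro n z
    obtain ⟨z0, h1, h2, _⟩ := mg_att hF n
    rw [h2]
    exact h1 z
  refine ⟨p1, fun n => ?_, fun n => ?_, fun m n => ?_⟩
  · obtain ⟨z0, _, h2, _⟩ := mg_att hF n
    exact ⟨z0, h2.symm⟩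
  · obtain ⟨z0, _, h2, h3⟩ := mg_att hF n
    rw [← h2, ← Real.exp_zero] at h3
    exact Real.exp_le_exp.1 h3
  · obtain ⟨z0, _, h2, _⟩ := mg_att hF (m + n)
    have hm := Pool.Agent.KTK.H88.cs_iter hF m
    have hn := Pool.Agent.KTK.H88.cs_iter hF n
    have h3 : fderiv ℝ (F^[m + n]) z0 =
        (fderiv ℝ (F^[m]) (F^[n] z0)).comp (fderiv ℝ (F^[n]) z0) := by
      rw [Function.iterate_add]
      exact fderiv_comp z0 ((hm.sm.differentiable (by simp)) _) ((hn.sm.differentiable (by simp)) _)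
    have h4 : Real.exp (mg F (m + n)) ≤ Real.exp (mg F m + mg F n) := by
      rw [h2, h3, Real.exp_add]
      exact (ContinuousLinearMap.opNorm_comp_le _ _).trans
        (mul_le_mul (p1 m _) (p1 n _) (norm_nonneg _) (Real.exp_pos _).le)
    exact Real.exp_le_exp.1 h4

end Pool.Agent.KTK.H51
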